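import Pool.Agent.K3h83.IN.Stm3
import Pool.Agent.K3h3.KB.Cov2

/-!
# Orthogonal complements of non-degenerate subgroups (`T5`, `T14`)
-/

set_option autoImplicit false
set_option maxHeartbeats 400000

open scoped BigOperators Classical

noncomputable section

namespace Pool.Agent.K3h59.IN

open Pool.Agent.K3h83.IN

section T5

variable {q : ℕ} {M : Type} [Group M]

/-- the commutator is multiplicative in the second variable -/
theorem cm_right (h : Sy q M) (m a b : M) :
    m * (a * b) * m⁻¹ * (a * b)⁻¹ = (m * a * m⁻¹ * a⁻¹) * (m * b * m⁻¹ * b⁻¹) := by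
  have h1 := Subgroup.mem_center_iff.mp (h.com m b) a⁻¹
  have h2 : m * (a * b) * m⁻¹ * (a * b)⁻¹ = (m * a * m⁻¹) * ((m * b * m⁻¹ * b⁻¹) * a⁻¹) := by
    group
  rw [h2, ← h1]
  group

/-- the commutator is multiplicative in the first variable -/
theorem cm_left (h : Sy q M) (m n a : M) :
    (m * n) * a * (m * n)⁻¹ * a⁻¹ = (m * a * m⁻¹ * a⁻¹) * (n * a * n⁻¹ * a⁻¹) := by
  have h1 := Subgroup.mem_center_iff.mp (h.com n a) m
  have h2 : (m * n) * a * (m * n)⁻¹ * a⁻¹ = (m * (n * a * n⁻¹ * a⁻¹)) * (a * m⁻¹ * a⁻¹) := by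
    group
  rw [h2, h1, mul_assoc]
  have h3 := Subgroup.mem_center_iff.mp (h.com n a) (m * a * m⁻¹ * a⁻¹)
  rw [h3]
  group

/-- the homomorphism `a ↦ [m, a]` with values in the center -/
def cmh (h : Sy q M) (m : M) : M →* Subgroup.center M where
  toFun a := ⟨m * a * m⁻¹ * a⁻¹, h.com m a⟩
  map_one' := Subtype.ext (by simp)
  map_mul' a b := Subtype.ext (cm_right h m a b)

theorem cmh_coe (h : Sy q M) (m a : M) : ((cmh h m a : Subgroup.center M) : M) =
    m * a * m⁻¹ * a⁻¹ := rfl

theorem cmh_eq_one (h : Sy q M) (m a : M) : cmh h m a = 1 ↔ m * a = a * m := by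
  rw [← Subtype.coe_inj, cmh_coe]
  change m * a * m⁻¹ * a⁻¹ = 1 ↔ _
  rw [mul_inv_eq_one, mul_inv_eq_iff_eq_mul]

theorem cmh_mul (h : Sy q M) (m n a : M) : cmh h (m * n) a = cmh h m a * cmh h n a :=
  Subtype.ext (cm_left h m n a)

variable (M₀ : Subgroup M)

/-- the quotient of `M₀` by the center -/
abbrev QZ : Type := M₀ ⧸ (Subgroup.center M).subgroupOf M₀

instance nqz : ((Subgroup.center M).subgroupOf M₀).Normal := inferInstance

/-- the homomorphism on the quotient -/
def cmq (h : Sy q M) (m : M) : QZ M₀ →* Subgroup.center M :=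
  QuotientGroup.lift _ ((cmh h m).comp M₀.subtype) (by
    intro a ha
    rw [Subgroup.mem_subgroupOf] at ha
    change cmh h m (a : M) = 1
    rw [cmh_eq_one]
    exact Subgroup.mem_center_iff.mp ha m)

theorem cmq_mk (h : Sy q M) (m : M) (a : M₀) :
    cmq M₀ h m (QuotientGroup.mk a) = cmh h m (a : M) := rfl

theorem exists_comp [Finite M] (h : Sy q M) (hc : IsCyclic (Subgroup.center M)) (hN : Nd M₀)
    (m : M) : ∃ a ∈ M₀, ∀ n ∈ M₀, cmh h m n = cmh h a n := by
  obtain ⟨ι, hι⟩ : ∃ ι : Subgroup.center M →* ℂˣ, Function.Injective ι := by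
    have hn : NeZero (Nat.card (Subgroup.center M)) := ⟨Nat.card_pos.ne'⟩
    have hcard : Nat.card (Subgroup.center M) =
        Nat.card (rootsOfUnity (Nat.card (Subgroup.center M)) ℂ) := by
      rw [HasEnoughRootsOfUnity.natCard_rootsOfUnity]
    let e := mulEquivOfCyclicCardEq hcard
    exact ⟨(rootsOfUnity _ ℂ).subtype.comp e.toMonoidHom,
      (Subgroup.subtype_injective _).comp e.injective⟩
  let _ : CommGroup (QZ M₀) := { (inferInstance : Group (QZ M₀)) with
    mul_comm := by
      intro x y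
      induction x using QuotientGroup.induction_on with | H a => ?_
      induction y using QuotientGroup.induction_on with | H b => ?_
      rw [← QuotientGroup.mk_mul, ← QuotientGroup.mk_mul, QuotientGroup.eq,
        Subgroup.mem_subgroupOf]
      have h1 := h.com (b : M)⁻¹ (a : M)⁻¹
      have h2 : (((a * b)⁻¹ * (b * a) : M₀) : M) =
          (b : M)⁻¹ * (a : M)⁻¹ * ((b : M)⁻¹)⁻¹ * ((a : M)⁻¹)⁻¹ := by
        push_cast
        group
      rw [h2]
      exact h1 }
  let Ψ : M → (QZ M₀ →* ℂˣ) := fun m => ι.comp (cmq M₀ h m)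
  have hΨ : ∀ m n, Ψ m = Ψ n → ∀ a ∈ M₀, cmh h m a = cmh h n a := by
    intro m n hmn a ha
    have h1 := DFunLike.congr_fun hmn (QuotientGroup.mk (⟨a, ha⟩ : M₀))
    exact hι h1
  -- the restriction to `M₀` factors through an injective map of the quotient
  let Θ : QZ M₀ → (QZ M₀ →* ℂˣ) := fun x => Ψ (Quotient.out x : M₀)
  have hinj : Function.Injective Θ := by
    intro x y hxy
    have h1 := hΨ _ _ hxy
    rw [← QuotientGroup.out_eq' x, ← QuotientGroup.out_eq' y, QuotientGroup.eq,
      Subgroup.mem_subgroupOf]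
    refine hN.nd _ (Subgroup.mul_mem _ (Subgroup.inv_mem _ (SetLike.coe_mem _))
      (SetLike.coe_mem _)) ?_
    intro n hn
    rw [← cmh_eq_one h]
    have h2 := h1 n hn
    have h3 : cmh h ((Quotient.out x : M₀) : M)⁻¹ n = (cmh h ((Quotient.out x : M₀) : M) n)⁻¹ := by
      rw [eq_inv_iff_mul_eq_one, ← cmh_mul, inv_mul_cancel, cmh_eq_one]
      simp
    change cmh h (((Quotient.out x : M₀) : M)⁻¹ * ((Quotient.out y : M₀) : M)) n = 1
    rw [cmh_mul, h3, h2]
    exact inv_mul_cancel _
  have hfin : Finite (QZ M₀ →* ℂˣ) := Nat.finite_of_card_ne_zero (by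
    rw [Pool.Agent.K3h3.KB.card_dual]; exact Nat.card_pos.ne')
  have hsurj : Function.Surjective Θ := by
    have h1 : Nat.card (QZ M₀) = Nat.card (QZ M₀ →* ℂˣ) := (Pool.Agent.K3h3.KB.card_dual).symm
    have := Fintype.ofFinite (QZ M₀)
    have := Fintype.ofFinite (QZ M₀ →* ℂˣ)
    refine ((Fintype.bijective_iff_injective_and_card Θ).mpr ⟨hinj, ?_⟩).2
    rwa [← Nat.card_eq_fintype_card, ← Nat.card_eq_fintype_card]
  obtain ⟨x, hx⟩ := hsurj (Ψ m)
  exact ⟨(Quotient.out x : M₀), SetLike.coe_mem _, fun n hn => (hΨ _ _ hx n hn).symm⟩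

theorem t_T5 : T5 := by
  intro q _ M _ _ h hc M₀ hN
  have key : ∀ m : M, ∃ a ∈ M₀, ∃ b ∈ Subgroup.centralizer (M₀ : Set M), m = a * b := by
    intro m
    obtain ⟨a, ha, h1⟩ := exists_comp M₀ h hc hN m
    refine ⟨a, ha, a⁻¹ * m, ?_, by group⟩
    rw [Subgroup.mem_centralizer_iff]
    intro n hn
    have h2 := h1 n hn
    have h3 : cmh h a⁻¹ n = (cmh h a n)⁻¹ := by
      rw [eq_inv_iff_mul_eq_one, ← cmh_mul, inv_mul_cancel, cmh_eq_one]
      simp
    have h4 : cmh h (a⁻¹ * m) n = 1 := by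
      rw [cmh_mul, h3, h2]
      exact inv_mul_cancel _
    exact ((cmh_eq_one h _ _).mp h4).symm
  refine ⟨⟨?_, ?_⟩, key⟩
  · exact Subgroup.center_le_centralizer _
  · intro m hm hm2
    rw [Subgroup.mem_center_iff]
    intro g
    obtain ⟨a, ha, b, hb, rfl⟩ := key g
    have h1 := Subgroup.mem_centralizer_iff.mp hm a ha
    have h2 := hm2 b hb
    rw [mul_assoc, ← h2, ← mul_assoc, h1, mul_assoc]

end T5

section T14

theorem t_T14 : T14 := by
  intro M _ _ ι _ F hF hcom
  have key : ∀ s : Finset ι, (∀ i ∈ s, ∀ j ∈ s, i ≠ j → ∀ a ∈ F i, ∀ b ∈ F j, a * b = b * a) →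
      ∀ m ∈ (⨆ i ∈ s, F i) ⊔ Subgroup.center M, (∀ i ∈ s, ∀ n ∈ F i, m * n = n * m) →
      m ∈ Subgroup.center M := by
    intro s
    induction s using Finset.induction_on with
    | empty =>
      intro _ m hm _
      simpa using hm
    | insert i₀ s hi ih =>
      intro hs m hm hmc
      have hcs : ∀ c ∈ (⨆ i ∈ s, F i) ⊔ Subgroup.center M, ∀ a ∈ F i₀, c * a = a * c := by
        intro c hc a ha
        have h1 : (⨆ i ∈ s, F i) ⊔ Subgroup.center M ≤ Subgroup.centralizer {a} := by
          refine sup_le (iSup₂_le fun i his => ?_) ?_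
          · intro b hb
            rw [Subgroup.mem_centralizer_singleton_iff]
            have hne : i ≠ i₀ := fun h => hi (h ▸ his)
            exact hs i (Finset.mem_insert_of_mem his) i₀ (Finset.mem_insert_self _ _) hne b hb a ha
          · exact Subgroup.center_le_centralizer _
        exact Subgroup.mem_centralizer_singleton_iff.mp (h1 hc)
      have hm' : m ∈ F i₀ ⊔ ((⨆ i ∈ s, F i) ⊔ Subgroup.center M) := by
        rw [Finset.iSup_insert, sup_assoc] at hm
        exact hm
      obtain ⟨a, ha, c, hc, rfl⟩ : ∃ a ∈ F i₀, ∃ c ∈ (⨆ i ∈ s, F i) ⊔ Subgroup.center M,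
          m = a * c := by
        have hcm : ∀ a ∈ F i₀, ∀ c ∈ (⨆ i ∈ s, F i) ⊔ Subgroup.center M, c * a = a * c :=
          fun a ha c hc => hcs c hc a ha
        let K : Subgroup M :=
          { carrier := {m | ∃ a ∈ F i₀, ∃ c ∈ (⨆ i ∈ s, F i) ⊔ Subgroup.center M, m = a * c}
            mul_mem' := by
              rintro x y ⟨a, ha, c, hc, rfl⟩ ⟨a', ha', c', hc', rfl⟩
              refine ⟨a * a', mul_mem ha ha', c * c', mul_mem hc hc', ?_⟩
              rw [mul_assoc, ← mul_assoc c, hcm a' ha' c hc]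
              group
            one_mem' := ⟨1, one_mem _, 1, one_mem _, by simp⟩
            inv_mem' := by
              rintro x ⟨a, ha, c, hc, rfl⟩
              refine ⟨a⁻¹, inv_mem ha, c⁻¹, inv_mem hc, ?_⟩
              rw [mul_inv_rev, hcm a⁻¹ (inv_mem ha) c⁻¹ (inv_mem hc)] }
        have h1 : F i₀ ⊔ ((⨆ i ∈ s, F i) ⊔ Subgroup.center M) ≤ K := by
          refine sup_le (fun a ha => ⟨a, ha, 1, one_mem _, by simp⟩)
            (fun c hc => ⟨1, one_mem _, c, hc, by simp⟩)
        exact h1 hm'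
      have hac : a ∈ Subgroup.center M := by
        refine (hF i₀).nd a ha fun n hn => ?_
        have h1 := hmc i₀ (Finset.mem_insert_self _ _) n hn
        have h2 := hcs c hc n hn
        have h3 : a * n * c = n * a * c := by
          rw [mul_assoc, ← h2, ← mul_assoc, h1, ← mul_assoc]
        exact mul_right_cancel h3
      have hcc : c ∈ Subgroup.center M := by
        refine ih (fun i hi j hj => hs i (Finset.mem_insert_of_mem hi) j
          (Finset.mem_insert_of_mem hj)) c hc fun i his n hn => ?_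
        have h1 := hmc i (Finset.mem_insert_of_mem his) n hn
        have h2 := Subgroup.mem_center_iff.mp hac n
        have h3 : a * (c * n) = a * (n * c) := by
          rw [← mul_assoc, h1, ← mul_assoc, ← mul_assoc, h2]
        exact mul_left_cancel h3
      exact mul_mem hac hcc
  refine ⟨?_, ?_⟩
  · obtain ⟨i⟩ := (inferInstance : Nonempty ι)
    exact (hF i).le.trans (le_iSup F i)
  · intro m hm hmc
    -- representatives of the different subgroups
    have hfin : (Set.range F).Finite := Set.toFinite _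
    have hrep : ∀ K : Subgroup M, K ∈ Set.range F → ∃ i, F i = K := fun K hK => hK
    let r : Subgroup M → ι := fun K => if h : ∃ i, F i = K then h.choose else Classical.arbitrary ι
    have hr : ∀ i, F (r (F i)) = F i := by
      intro i
      have h : ∃ j, F j = F i := ⟨i, rfl⟩
      simp only [r, dif_pos h]
      exact h.choose_spec
    let s : Finset ι := hfin.toFinset.image r
    have hs : ∀ i ∈ s, ∀ j ∈ s, i ≠ j → ∀ a ∈ F i, ∀ b ∈ F j, a * b = b * a := by
      intro i hi j hj hij
      obtain ⟨K, hK, rfl⟩ := Finset.mem_image.mp hi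
      obtain ⟨L, hL, rfl⟩ := Finset.mem_image.mp hj
      obtain ⟨i', rfl⟩ := hfin.mem_toFinset.mp hK
      obtain ⟨j', rfl⟩ := hfin.mem_toFinset.mp hL
      rcases hcom (r (F i')) (r (F j')) with h | h
      · exfalso
        apply hij
        rw [hr, hr] at h
        rw [h]
      · exact h
    refine key s hs m ?_ fun i _ n hn => hmc n (Subgroup.mem_iSup_of_mem i hn)
    refine Subgroup.mem_sup_left ?_
    have h1 : (⨆ i, F i) ≤ ⨆ i ∈ s, F i := by
      refine iSup_le fun i => ?_
      rw [← hr i]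
      exact le_iSup₂_of_le (r (F i))
        (Finset.mem_image.mpr ⟨F i, hfin.mem_toFinset.mpr ⟨i, rfl⟩, rfl⟩) le_rfl
    exact h1 hm

end T14

end Pool.Agent.K3h59.IN
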